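import Mathlib

namespace Pool.Agent.Results.MP_1bbe3d_pr.NoMLE

open Real Finset

/-- `u(t) = τ + β (t - τ)` -/
def u (τ β t : ℝ) : ℝ := τ + β * (t - τ)

/-- the log-likelihood; the failure times are `t 0, …, t (m-1)`, of which `n₁` are at most `τ` -/
noncomputable def l (τ η : ℝ) (n n₁ m : ℕ) (t : ℕ → ℝ) (α θ β : ℝ) : ℝ :=
  m * log α + ((m : ℝ) - n₁) * log β - m * α * log θ +
    (α - 1) * (∑ i ∈ range n₁, log (t i) + ∑ i ∈ Ico n₁ m, log (u τ β (t i))) -
    θ ^ (-α) * (∑ i ∈ range n₁, t i ^ α + ∑ i ∈ Ico n₁ m, u τ β (t i) ^ α +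
      ((n : ℝ) - m) * u τ β η ^ α)

noncomputable def T (i : ℕ) : ℝ := if i = 0 then 1 + 3 / 9999 else if i = 1 then 1 + 8 / 9999 else 2

lemma l_eq (α θ β : ℝ) : l 1 2 3 0 3 T α θ β = 3 * log α + 3 * log β - 3 * α * log θ +
    (α - 1) * (log (1 + β * (3 / 9999)) + log (1 + β * (8 / 9999)) + log (1 + β)) -
    θ ^ (-α) * ((1 + β * (3 / 9999)) ^ α + (1 + β * (8 / 9999)) ^ α + (1 + β) ^ α) := by
  simp [l, u, T, sum_range_succ, show (2 : ℝ) - 1 = 1 by norm_num]

theorem result : ∃ (τ η : ℝ) (n n₁ m : ℕ) (t : ℕ → ℝ), 0 < τ ∧ τ < η ∧ n₁ < m ∧ 3 ≤ m ∧ m ≤ n ∧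
    0 < t 0 ∧ (∀ i, i + 1 < m → t i < t (i + 1)) ∧ (∀ i < n₁, t i ≤ τ) ∧
    (∀ i, n₁ ≤ i → i < m → τ < t i ∧ t i ≤ η) ∧
    ∀ α > 0, ∀ θ > 0, ∀ β > 0, ∃ α' > 0, ∃ θ' > 0, ∃ β' > 0,
      l τ η n n₁ m t α θ β < l τ η n n₁ m t α' θ' β' := by
  refine ⟨1, 2, 3, 0, 3, T, one_pos, by norm_num, by norm_num, le_rfl, le_rfl, by norm_num [T],
    fun i hi => ?_, by simp, fun i _ hi => ?_, fun α hα θ hθ β hβ => ?_⟩
  · have : i < 2 := by omega
    interval_cases i <;> norm_num [T]
  · interval_cases i <;> norm_num [T]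
  rcases le_or_gt α 1 with h | h
  · refine ⟨α, hα, 2 * θ, by positivity, 2 * β, by positivity, ?_⟩
    have a : ∀ s > 0, log (1 + 2 * β * s) ≤ log 2 + log (1 + β * s) := fun s hs => by
      rw [← log_mul (by norm_num) (by positivity)]
      exact log_le_log (by positivity) (by linarith)
    have b : ∀ s > 0, (2 * θ) ^ (-α) * (1 + 2 * β * s) ^ α < θ ^ (-α) * (1 + β * s) ^ α := by
      intro s hs
      rw [rpow_neg (by positivity), rpow_neg hθ.le, inv_mul_eq_div, inv_mul_eq_div,
        ← div_rpow (by positivity) (by positivity), ← div_rpow (by positivity) hθ.le]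
      refine rpow_lt_rpow (by positivity) ?_ hα
      rw [div_lt_div_iff₀ (by positivity) hθ]
      nlinarith
    have a1 := a (3 / 9999) (by norm_num)
    have a2 := a (8 / 9999) (by norm_num)
    have a3 := a 1 one_pos
    have b1 := b (3 / 9999) (by norm_num)
    have b2 := b (8 / 9999) (by norm_num)
    have b3 := b 1 one_pos
    rw [mul_one, mul_one] at a3 b3
    rw [l_eq, l_eq, log_mul (by norm_num) hθ.ne', log_mul (by norm_num) hβ.ne']
    nlinarith
  · refine ⟨1 / 2, by norm_num, 2500, by norm_num, 9999, by norm_num, lt_of_le_of_lt (b := 2) ?_ ?_⟩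
    · rw [l_eq]
      have p : 0 < 1 + β := by positivity
      have y0 : 0 < θ ^ (-α) * (1 + β) ^ α := by positivity
      have y1 : log (θ ^ (-α) * (1 + β) ^ α) = -α * log θ + α * log (1 + β) := by
        rw [log_mul (by positivity) (by positivity), log_rpow hθ, log_rpow p]
      have y2 := log_le_sub_one_of_pos (show 0 < θ ^ (-α) * (1 + β) ^ α / 3 by positivity)
      rw [log_div y0.ne' (by norm_num), y1] at y2
      have r : ∀ s > 0, s ≤ 1 / 4 → log (1 + β * s) - log (1 + β) ≤ -(3 / 4 * (β / (1 + β))) := by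
        intro s hs hs'
        rw [← log_div (by positivity) p.ne']
        refine (log_le_sub_one_of_pos (by positivity)).trans ?_
        rw [div_sub_one p.ne', ← mul_div_assoc, ← neg_div]
        exact div_le_div_of_nonneg_right (by nlinarith) p.le
      have r1 := r (3 / 9999) (by norm_num) (by norm_num)
      have r2 := r (8 / 9999) (by norm_num) (by norm_num)
      have z := log_le_sub_one_of_pos (show 0 < α * (β / (1 + β)) / 2 by positivity)
      rw [log_div (by positivity) (by norm_num), log_mul hα.ne' (by positivity),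
        log_div hβ.ne' p.ne'] at z
      have w : β / (1 + β) ≤ 1 := (div_le_one p).mpr (by linarith)
      have n1 : 0 ≤ θ ^ (-α) * (1 + β * (3 / 9999)) ^ α := by positivity
      have n2 : 0 ≤ θ ^ (-α) * (1 + β * (8 / 9999)) ^ α := by positivity
      have l2 := log_two_lt_d9
      have l3 : log 3 ≤ 2 * log 2 - 1 / 4 := by
        have := log_le_sub_one_of_pos (show (0 : ℝ) < 3 / 2 ^ 2 by norm_num)
        rw [log_div (by norm_num) (by norm_num), log_pow] at this
        push_cast at this; linarith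
      nlinarith [mul_le_mul_of_nonneg_left (add_le_add r1 r2) (sub_pos.mpr h).le]
    · rw [l_eq]
      have s : ∀ x : ℝ, 0 ≤ x → (x ^ 2) ^ (1 / 2 : ℝ) = x := fun x hx => by
        rw [← sqrt_eq_rpow, sqrt_sq hx]
      rw [show (1 + 9999 * (3 / 9999) : ℝ) = 2 ^ 2 by norm_num,
        show (1 + 9999 * (8 / 9999) : ℝ) = 3 ^ 2 by norm_num,
        show (1 + 9999 : ℝ) = 100 ^ 2 by norm_num, show (2500 : ℝ) = 50 ^ 2 by norm_num,
        rpow_neg (by norm_num), s _ (by norm_num), s _ (by norm_num), s _ (by norm_num),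
        s _ (by norm_num), log_pow, log_pow, log_pow, log_pow, one_div, log_inv]
      have k : log (2 ^ 13 * 50 ^ 3 * (2 * 3 * 100)) ≤ log (9999 ^ 3) :=
        log_le_log (by norm_num) (by norm_num)
      rw [log_mul (by norm_num) (by norm_num), log_mul (by norm_num) (by norm_num),
        log_mul (by norm_num) (by norm_num), log_mul (by norm_num) (by norm_num), log_pow,
        log_pow, log_pow] at k
      push_cast at k ⊢
      linarith [log_two_gt_d9]

end Pool.Agent.Results.MP_1bbe3d_pr.NoMLE
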